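import Mathlib
import Pool.Agent.H413R3.KGMain

/-!
# Families of forbidden multiplicative patterns: free sets and gluing
-/

set_option autoImplicit false

open Finset Filter Topology

namespace Pool.Agent.Y356.DP

open Pool.Agent.H413R3.KG
open Pool.Agent.H413R3.GP (cnt cnt_mono cnt_eq_sum)

/-- Families of finite patterns: closed under dilations in both directions; for primes `p ≥ p₀` a
pattern without elements divisible by `p ^ 2` is constant modulo divisibility by `p`. -/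
structure Pat (F : Finset ℕ → Prop) (p₀ : ℕ) : Prop where
  ne : ¬ F ∅
  pos : ∀ X, F X → ∀ x ∈ X, 1 ≤ x
  dil : ∀ X m, 1 ≤ m → (F (X.image (fun x => m * x)) ↔ F X)
  sq : ∀ X, F X → ∀ p, p.Prime → p₀ ≤ p → (∀ x ∈ X, ¬ p ^ 2 ∣ x) →
    ∀ x ∈ X, ∀ y ∈ X, p ∣ x → p ∣ y

/-- sets without patterns -/
def Free (F : Finset ℕ → Prop) (A : Set ℕ) : Prop := ∀ X, F X → ¬ ((X : Set ℕ) ⊆ A)

variable {F : Finset ℕ → Prop} {p₀ : ℕ}

lemma free_mono {A B : Set ℕ} (h : A ⊆ B) (hB : Free F B) : Free F A :=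
  fun X hX hs => hB X hX (hs.trans h)

lemma free_empty (hF : Pat F p₀) : Free F ∅ := by
  intro X hX hs
  have : X = ∅ := by
    apply Finset.eq_empty_of_forall_notMem
    intro x hx
    exact hs (Finset.mem_coe.2 hx)
  rw [this] at hX
  exact hF.ne hX

/-- the fibres of a free set are free -/
lemma free_fibre (hF : Pat F p₀) {A : Set ℕ} (hA : Free F A) {m : ℕ} (hm : 1 ≤ m) :
    Free F {t | t * m ∈ A} := by
  intro X hX hs
  apply hA (X.image fun x => m * x) ((hF.dil X m hm).2 hX)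
  intro y hy
  rw [Finset.mem_coe, Finset.mem_image] at hy
  obtain ⟨x, hx, rfl⟩ := hy
  have := hs (Finset.mem_coe.2 hx)
  rw [mul_comm]
  exact this

/-- rough parts agree in patterns with small exponents -/
lemma rg_const (hF : Pat F p₀) {K : ℕ} (hK : p₀ ≤ K) {X : Finset ℕ} (hX : F X)
    (hfr : ∀ x ∈ X, ∀ p, K ≤ p → x.factorization p ≤ 1) :
    ∀ x ∈ X, ∀ y ∈ X, rg K x = rg K y := by
  intro x hx y hy
  have hx0 : x ≠ 0 := by have := hF.pos X hX x hx; omega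
  have hy0 : y ≠ 0 := by have := hF.pos X hX y hy; omega
  apply Nat.eq_of_factorization_eq (rg_pos K hx0).ne' (rg_pos K hy0).ne'
  intro p
  rw [fac_rg K p hx0, fac_rg K p hy0]
  split_ifs with hp
  · rfl
  · rw [not_lt] at hp
    by_cases hpp : p.Prime
    · have hsq : ∀ z ∈ X, ¬ p ^ 2 ∣ z := by
        intro z hz hd
        have hz0 : z ≠ 0 := by have := hF.pos X hX z hz; omega
        have := (hpp.pow_dvd_iff_le_factorization hz0).1 hd
        have := hfr z hz p hp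
        omega
      have h1 := hF.sq X hX p hpp (hK.trans hp) hsq x hx y hy
      have h2 := hF.sq X hX p hpp (hK.trans hp) hsq y hy x hx
      rw [hpp.dvd_iff_one_le_factorization hx0, hpp.dvd_iff_one_le_factorization hy0] at h1 h2
      have h3 := hfr x hx p hp
      have h4 := hfr y hy p hp
      omega
    · rw [Nat.factorization_eq_zero_of_not_prime _ hpp, Nat.factorization_eq_zero_of_not_prime _ hpp]

lemma image_sm (hF : Pat F p₀) {K : ℕ} {X : Finset ℕ} (hX : F X)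
    (hc : ∀ x ∈ X, ∀ y ∈ X, rg K x = rg K y) : F (X.image (sm K)) := by
  have hne : X.Nonempty := by
    rw [Finset.nonempty_iff_ne_empty]
    rintro rfl
    exact hF.ne hX
  obtain ⟨x₀, hx₀⟩ := hne
  have h0 : x₀ ≠ 0 := by have := hF.pos X hX x₀ hx₀; omega
  rw [← hF.dil _ (rg K x₀) (rg_pos K h0), Finset.image_image]
  have : X.image ((fun x => rg K x₀ * x) ∘ sm K) = X := by
    ext y
    rw [Finset.mem_image]
    constructor
    · rintro ⟨x, hx, rfl⟩
      have hx0 : x ≠ 0 := by have := hF.pos X hX x hx; omega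
      simp only [Function.comp]
      rw [hc x₀ hx₀ x hx, mul_comm, sm_mul_rg K hx0]
      exact hx
    · intro hy
      have hy0 : y ≠ 0 := by have := hF.pos X hX y hy; omega
      refine ⟨y, hy, ?_⟩
      simp only [Function.comp]
      rw [hc x₀ hx₀ y hy, mul_comm, sm_mul_rg K hy0]
  rw [this]
  exact hX

lemma base_exp1 {K : ℕ} {T : Set ℕ} {n : ℕ} (h : n ∈ Base 3 K T) :
    ∀ p, K ≤ p → n.factorization p ≤ 1 := base_exp h

lemma base_free (hF : Pat F p₀) {K : ℕ} (hK : p₀ ≤ K) {T : Set ℕ} (hT : Free F T) :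
    Free F (Base 3 K T) := by
  intro X hX hs
  have hc := rg_const hF hK hX (fun x hx => base_exp1 (hs (Finset.mem_coe.2 hx)))
  apply hT _ (image_sm hF hX hc)
  intro t ht
  rw [Finset.mem_coe, Finset.mem_image] at ht
  obtain ⟨x, hx, rfl⟩ := ht
  exact (hs (Finset.mem_coe.2 hx)).2.1

lemma base_empty {K : ℕ} {n : ℕ} : n ∉ Base 3 K ∅ := fun h => h.2.1

lemma mix_exp1 {K : ℕ} {T T1 : Set ℕ} {j n : ℕ} (h : n ∈ Mix 3 K T T1 j) :
    ∀ p, K + 1 ≤ p → n.factorization p ≤ 1 := mix_exp h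

lemma mix_rg (hF : Pat F p₀) {K : ℕ} {T T1 : Set ℕ} (hT0 : K < p₀ → T = ∅)
    (hT10 : K + 1 < p₀ → T1 = ∅) {j : ℕ} {X : Finset ℕ} (hX : F X)
    (hfr : ∀ x ∈ X, ∀ p, K + 1 ≤ p → x.factorization p ≤ 1)
    (hex : ∃ x ∈ X, x ∈ Mix 3 K T T1 j) :
    ∀ x ∈ X, ∀ y ∈ X, rg (K + 1) x = rg (K + 1) y := by
  rcases lt_or_ge (K + 1) p₀ with h | h
  · exfalso
    obtain ⟨x, -, hx⟩ := hex
    rw [hT0 (by omega), hT10 h] at hx
    rcases hx with hx | hx
    · exact base_empty hx.1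
    · exact base_empty hx.1
  · exact rg_const hF h hX hfr

lemma mix_free (hF : Pat F p₀) {K : ℕ} {T T1 : Set ℕ} (hT : Free F T) (hT1 : Free F T1)
    (hT0 : K < p₀ → T = ∅) (hT10 : K + 1 < p₀ → T1 = ∅) (j : ℕ) :
    Free F (Mix 3 K T T1 j) := by
  intro X hX hs
  have hne : X.Nonempty := by
    rw [Finset.nonempty_iff_ne_empty]
    rintro rfl
    exact hF.ne hX
  obtain ⟨x₀, hx₀⟩ := hne
  have hc := mix_rg (T := T) (T1 := T1) (j := j) hF hT0 hT10 hX
    (fun x hx => mix_exp1 (hs (Finset.mem_coe.2 hx))) ⟨x₀, hx₀, hs (Finset.mem_coe.2 hx₀)⟩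
  have hx₀m := hs (Finset.mem_coe.2 hx₀)
  by_cases h0 : rg (K + 1) x₀ ∈ Sel (Fr 3 (K + 1)) (Ind (2 * K + 1) j)
  · have hK : p₀ ≤ K + 1 := by
      by_contra hlt
      rw [not_le] at hlt
      rcases hx₀m with h | h
      · rw [hT10 hlt] at h; exact base_empty h.1
      · exact h.2 h0
    refine base_free hF hK hT1 X hX fun x hx => ?_
    rcases hs hx with h | h
    · exact h.1
    · exact absurd (by rw [hc x (Finset.mem_coe.1 hx) x₀ hx₀]; exact h0) h.2
  · have hK : p₀ ≤ K := by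
      by_contra hlt
      rw [not_le] at hlt
      rcases hx₀m with h | h
      · exact h0 h.2
      · rw [hT0 hlt] at h; exact base_empty h.1
    refine base_free hF hK hT X hX fun x hx => ?_
    rcases hs hx with h | h
    · exact absurd (by rw [← hc x (Finset.mem_coe.1 hx) x₀ hx₀]; exact h.2) h0
    · exact h.1

theorem glue (hF : Pat F p₀) (A : ℕ → Set ℕ) (Kf : ℕ → ℕ) (hKm : Monotone Kf)
    (d e : ℕ → ℝ) (s : ℝ) (hApos : ∀ i, ∀ n ∈ A i, 1 ≤ n) (hAgp : ∀ i, Free F (A i))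
    (hAfr : ∀ i, ∀ n ∈ A i, ∀ p, Kf i ≤ p → n.factorization p ≤ 1)
    (hArg : ∀ i, ∀ X, F X → (∀ x ∈ X, ∀ p, Kf i ≤ p → x.factorization p ≤ 1) →
      (∃ x ∈ X, x ∈ A i) → ∀ x ∈ X, ∀ y ∈ X, rg (Kf i) x = rg (Kf i) y)
    (hd : ∀ i, Dens (A i) (d i)) (hds : Tendsto d atTop (𝓝 s))
    (B : ℕ → Set ℕ) (hB : ∀ i n, 1 ≤ n → n ∉ B i → (n ∈ A i ↔ n ∈ A (i + 1)))
    (hBd : ∀ i, Dens (B i) (e i)) (hes : Tendsto e atTop (𝓝 0)) :
    ∃ A' : Set ℕ, (∀ n ∈ A', 1 ≤ n) ∧ Free F A' ∧ Dens A' s := by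
  classical
  have hstep : ∀ i N : ℕ, ∃ N' : ℕ, N < N' ∧ ∀ X : ℕ, N' ≤ X →
      |(cnt (A i) X : ℝ) - d i * X| ≤ (1 / ((i : ℝ) + 1)) * X ∧
      |(cnt (B i) X : ℝ) - e i * X| ≤ (1 / ((i : ℝ) + 1)) * X ∧
      |(cnt (Z (Kf i) N) X : ℝ) - 0 * X| ≤ (1 / ((i : ℝ) + 1)) * X := by
    intro i N
    have hε : (0 : ℝ) < 1 / ((i : ℝ) + 1) := by positivity
    obtain ⟨N1, h1⟩ := dens_event (hd i) hε
    obtain ⟨N2, h2⟩ := dens_event (hBd i) hε
    obtain ⟨N3, h3⟩ := dens_event (dens_Z (Kf i) N) hε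
    refine ⟨N + 1 + N1 + N2 + N3, by omega, fun X hX => ⟨h1 X (by omega), h2 X (by omega),
      h3 X (by omega)⟩⟩
  choose Φ hΦ1 hΦ2 using hstep
  obtain ⟨Nf, hN0, hNs⟩ : ∃ Nf : ℕ → ℕ, Nf 0 = 1 ∧ ∀ i, Nf (i + 1) = Φ i (Nf i) :=
    ⟨fun i => Nat.rec 1 (fun i N => Φ i N) i, rfl, fun i => rfl⟩
  have hNlt : ∀ i, Nf i < Nf (i + 1) := fun i => by rw [hNs]; exact hΦ1 i _
  have hNmono : StrictMono Nf := strictMono_nat_of_lt_succ hNlt
  have hNgt : ∀ i, i < Nf i := by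
    intro i
    induction i with
    | zero => rw [hN0]; omega
    | succ i ih => have := hNlt i; omega
  let lev : ℕ → ℕ := fun n => Nat.findGreatest (fun j => Nf j ≤ rg (Kf j) n) n
  have F1 : ∀ n, 1 ≤ n → Nf (lev n) ≤ rg (Kf (lev n)) n := by
    intro n hn
    exact Nat.findGreatest_spec (P := fun j => Nf j ≤ rg (Kf j) n) (m := 0) (Nat.zero_le n)
      (by show Nf 0 ≤ rg (Kf 0) n; rw [hN0]; exact rg_pos _ (by omega))
  have F2 : ∀ n j, 1 ≤ n → Nf j ≤ rg (Kf j) n → j ≤ lev n := by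
    intro n j hn hj
    have h1 := rg_le (Kf j) (n := n) (by omega)
    have h2 := hNgt j
    exact Nat.le_findGreatest (P := fun j => Nf j ≤ rg (Kf j) n) (by omega) hj
  refine ⟨{n | 1 ≤ n ∧ n ∈ A (lev n)}, fun n hn => hn.1, ?_, ?_⟩
  · -- free
    intro X hX hs
    have hne : X.Nonempty := by
      rw [Finset.nonempty_iff_ne_empty]
      rintro rfl
      exact hF.ne hX
    obtain ⟨x0, hx0, hmax⟩ := Finset.exists_max_image X lev hne
    set L := lev x0 with hL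
    have hf : ∀ x ∈ X, 1 ≤ x ∧ x ∈ A (lev x) := fun x hx => hs (Finset.mem_coe.2 hx)
    have hpos : ∀ x ∈ X, 1 ≤ x := fun x hx => (hf x hx).1
    have hfr : ∀ x ∈ X, ∀ p, Kf L ≤ p → x.factorization p ≤ 1 := by
      intro x hx p hp
      exact hAfr _ _ (hf x hx).2 p ((hKm (hmax x hx)).trans hp)
    have hc := hArg L X hX hfr ⟨x0, hx0, (hf x0 hx0).2⟩
    have hlev : ∀ x ∈ X, lev x = L := by
      intro x hx
      apply le_antisymm (hmax x hx)
      apply F2 _ _ (hpos x hx)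
      rw [hc x hx x0 hx0]
      exact F1 _ (hpos x0 hx0)
    refine hAgp L X hX fun x hx => ?_
    have := (hf x (Finset.mem_coe.1 hx)).2
    rw [hlev x (Finset.mem_coe.1 hx)] at this
    exact this
  · -- density
    unfold Dens
    rw [Metric.tendsto_atTop]
    intro ε hε
    have hlim : Tendsto (fun i : ℕ => |d i - s| + (3 * (1 / ((i : ℝ) + 1)) + |e i|)) atTop (𝓝 0) := by
      have h1 : Tendsto (fun i => |d i - s|) atTop (𝓝 0) := by
        have : Tendsto (fun i => d i - s) atTop (𝓝 (s - s)) := hds.sub_const s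
        rw [sub_self] at this
        simpa using this.abs
      have h2 : Tendsto (fun i : ℕ => 3 * (1 / ((i : ℝ) + 1))) atTop (𝓝 (3 * 0)) :=
        tendsto_one_div_add_atTop_nhds_zero_nat.const_mul 3
      have h3 : Tendsto (fun i => |e i|) atTop (𝓝 0) := by simpa using hes.abs
      simpa using h1.add (h2.add h3)
    rw [Metric.tendsto_atTop] at hlim
    obtain ⟨i0, hi0⟩ := hlim ε hε
    refine ⟨Nf (i0 + 1) + 1, fun X hX => ?_⟩
    have hex : ∃ j, X < Nf j := ⟨X, hNgt X⟩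
    set j := Nat.find hex with hj
    have hj1 : X < Nf j := Nat.find_spec hex
    have hj2 : i0 + 2 ≤ j := by
      by_contra hlt
      push Not at hlt
      have : Nf j ≤ Nf (i0 + 1) := hNmono.monotone (by omega)
      omega
    obtain ⟨i, hi⟩ : ∃ i, j = i + 2 := ⟨j - 2, by omega⟩
    have hii : i0 ≤ i := by omega
    have hlow : Nf (i + 1) ≤ X := by
      have := Nat.find_min hex (m := i + 1) (by omega)
      omega
    have hup : X < Nf (i + 2) := by rw [← hi]; exact hj1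
    obtain ⟨a1, a2, a3⟩ := hΦ2 i (Nf i) X (by rw [← hNs]; exact hlow)
    have hXpos : (0 : ℝ) < X := by exact_mod_cast (by omega : 0 < X)
    have hdiff : |(cnt {n | 1 ≤ n ∧ n ∈ A (lev n)} X : ℝ) - cnt (A i) X| ≤
        cnt (B i ∪ Z (Kf i) (Nf i)) X := by
      apply cnt_sub_le'
      intro n hn1 hnX hnB
      have hnB1 : n ∉ B i := fun h => hnB (Or.inl h)
      have hnZ : Nf i ≤ rg (Kf i) n := by
        by_contra hlt
        push Not at hlt
        exact hnB (Or.inr ⟨hn1, hlt⟩)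
      have l1 : i ≤ lev n := F2 n i hn1 hnZ
      have l2 : lev n < i + 2 := by
        by_contra hge
        push Not at hge
        have h1 := hNmono.monotone hge
        have h2 := F1 n hn1
        have h3 := rg_le (Kf (lev n)) (n := n) (by omega)
        omega
      simp only [Set.mem_ofPred_eq]
      rcases (by omega : lev n = i ∨ lev n = i + 1) with h | h
      · rw [h]; tauto
      · rw [h, ← hB i n hn1 hnB1]; tauto
    have hu := cnt_union_le (B i) (Z (Kf i) (Nf i)) X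
    rw [Real.dist_eq]
    have e1 : (cnt {n | 1 ≤ n ∧ n ∈ A (lev n)} X : ℝ) / X - s =
        ((cnt {n | 1 ≤ n ∧ n ∈ A (lev n)} X : ℝ) - s * X) / X := by field_simp
    rw [e1, abs_div, abs_of_pos hXpos, div_lt_iff₀ hXpos]
    have hfin := hi0 i hii
    rw [Real.dist_eq, sub_zero] at hfin
    have hfin' := lt_of_abs_lt hfin
    have e2 : (cnt {n | 1 ≤ n ∧ n ∈ A (lev n)} X : ℝ) - s * X =
        ((cnt {n | 1 ≤ n ∧ n ∈ A (lev n)} X : ℝ) - cnt (A i) X) + ((cnt (A i) X : ℝ) - d i * X) +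
          (d i - s) * X := by ring
    rw [e2]
    have t1 := abs_add_le (((cnt {n | 1 ≤ n ∧ n ∈ A (lev n)} X : ℝ) - cnt (A i) X) +
      ((cnt (A i) X : ℝ) - d i * X)) ((d i - s) * X)
    have t2 := abs_add_le ((cnt {n | 1 ≤ n ∧ n ∈ A (lev n)} X : ℝ) - cnt (A i) X)
      ((cnt (A i) X : ℝ) - d i * X)
    have t3 : |(d i - s) * (X : ℝ)| = |d i - s| * X := by rw [abs_mul, abs_of_pos hXpos]
    have t4 : (cnt (B i) X : ℝ) ≤ (|e i| + 1 / ((i : ℝ) + 1)) * X := by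
      have h1 := (abs_le.1 a2).2
      have h2 : e i ≤ |e i| := le_abs_self _
      nlinarith
    have t5 : (cnt (Z (Kf i) (Nf i)) X : ℝ) ≤ (1 / ((i : ℝ) + 1)) * X := by
      have h1 := (abs_le.1 a3).2
      linarith
    have t6 : (|d i - s| + (3 * (1 / ((i : ℝ) + 1)) + |e i|)) * X < ε * X :=
      mul_lt_mul_of_pos_right hfin' hXpos
    nlinarith

theorem chain (hF : Pat F p₀) (T : ℕ → Set ℕ) (hT : ∀ K, T K ⊆ Nat.smoothNumbers K)
    (hTg : ∀ K, Free F (T K)) (hT0 : ∀ K, K < p₀ → T K = ∅) (γ : ℕ → ℝ)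
    (hγ : ∀ K, Dens (Fr 3 K) (γ K)) {s : ℝ}
    (hs : Tendsto (fun K => γ K * W (T K)) atTop (𝓝 s)) :
    ∃ A' : Set ℕ, (∀ n ∈ A', 1 ≤ n) ∧ Free F A' ∧ Dens A' s := by
  set dd : ℕ → ℝ := fun K => γ K * W (T K) with hdd
  let ι : ℕ → ℝ := fun i => ((i - Nat.sqrt i ^ 2 : ℕ) : ℝ) / ((2 * Nat.sqrt i + 1 : ℕ) : ℝ)
  have hj : ∀ i, i - Nat.sqrt i ^ 2 < 2 * Nat.sqrt i + 1 := by
    intro i
    have h2 := Nat.lt_succ_sqrt' i
    simp only [Nat.succ_eq_add_one] at h2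
    have e1 : (Nat.sqrt i + 1) ^ 2 = Nat.sqrt i ^ 2 + 2 * Nat.sqrt i + 1 := by ring
    omega
  apply glue hF (fun i => Mix 3 (Nat.sqrt i) (T (Nat.sqrt i)) (T (Nat.sqrt i + 1))
      (i - Nat.sqrt i ^ 2)) (fun i => Nat.sqrt i + 1)
    (fun a b h => Nat.add_le_add_right (Nat.sqrt_le_sqrt h) 1)
    (fun i => ι i * dd (Nat.sqrt i + 1) + (1 - ι i) * dd (Nat.sqrt i))
    (fun i => γ (Nat.sqrt i + 1) / P (Nat.sqrt i + 1) * (1 / ((2 * Nat.sqrt i + 1 : ℕ) : ℝ))) s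
    (fun i n hn => mix_pos hn)
    (fun i => mix_free hF (hTg _) (hTg _) (hT0 _) (hT0 _) _)
    (fun i n hn p hp => mix_exp1 hn p hp)
    (fun i X hX hfr hex => mix_rg hF (hT0 _) (hT0 _) hX hfr hex)
    (fun i => dens_mix (hT _) (hT _) (hγ _) (hγ _) (hj i).le)
    ?_ (fun i => Bd 3 (Nat.sqrt i) (i - Nat.sqrt i ^ 2)) ?_ (fun i => dens_Bd (hγ _) (hj i)) ?_
  · -- convergence of densities
    have h1 : Tendsto (fun i => dd (Nat.sqrt i + 1)) atTop (𝓝 s) :=
      hs.comp ((tendsto_add_atTop_nat 1).comp sqrt_tendsto)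
    have h2 : Tendsto (fun i => dd (Nat.sqrt i)) atTop (𝓝 s) := hs.comp sqrt_tendsto
    have hι0 : ∀ i, 0 ≤ ι i := fun i => by positivity
    have hι1 : ∀ i, ι i ≤ 1 := fun i => by
      rw [div_le_one (by positivity)]
      exact_mod_cast (hj i).le
    rw [Metric.tendsto_atTop] at h1 h2 ⊢
    intro ε hε
    obtain ⟨n1, hn1⟩ := h1 ε hε
    obtain ⟨n2, hn2⟩ := h2 ε hε
    refine ⟨max n1 n2, fun i hi => ?_⟩
    have a1 := hn1 i (le_trans (le_max_left _ _) hi)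
    have a2 := hn2 i (le_trans (le_max_right _ _) hi)
    rw [Real.dist_eq] at a1 a2 ⊢
    rw [abs_lt] at a1 a2 ⊢
    have b0 := hι0 i
    have b1 := hι1 i
    rcases eq_or_lt_of_le b0 with h0 | h0
    · rw [← h0]
      constructor <;> linarith [a2.1, a2.2]
    · constructor <;> nlinarith [a1.1, a1.2, a2.1, a2.2]
  · intro i n hn hB
    rcases sqrt_cases i with ⟨h1, h2, _⟩ | ⟨h1, h2, h3⟩
    · rw [h1, h2]
      exact mix_step hn hB
    · rw [h1, h3, mix_zero, ← mix_full (T := T (Nat.sqrt i)), mix_step hn hB, h2]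
  · have hb : ∀ i, |γ (Nat.sqrt i + 1) / P (Nat.sqrt i + 1) * (1 / ((2 * Nat.sqrt i + 1 : ℕ) : ℝ))| ≤
        1 / ((Nat.sqrt i : ℝ) + 1) := by
      intro i
      have h1 := dens_nonneg (hγ (Nat.sqrt i + 1))
      have h2 := fr_dens_le (hγ (Nat.sqrt i + 1))
      have h3 := P_pos (Nat.sqrt i + 1)
      rw [abs_of_nonneg (by positivity)]
      have h4 : γ (Nat.sqrt i + 1) / P (Nat.sqrt i + 1) ≤ 1 := by rw [div_le_one h3]; exact h2
      have h5 : 1 / ((2 * Nat.sqrt i + 1 : ℕ) : ℝ) ≤ 1 / ((Nat.sqrt i : ℝ) + 1) := by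
        apply one_div_le_one_div_of_le (by positivity)
        push_cast
        have : (0 : ℝ) ≤ (Nat.sqrt i : ℝ) := by positivity
        linarith
      calc _ ≤ 1 * (1 / ((Nat.sqrt i : ℝ) + 1)) :=
            mul_le_mul h4 h5 (by positivity) (by norm_num)
        _ = _ := one_mul _
    have hl : Tendsto (fun i => 1 / ((Nat.sqrt i : ℝ) + 1)) atTop (𝓝 0) :=
      tendsto_one_div_add_atTop_nhds_zero_nat.comp sqrt_tendsto
    exact squeeze_zero_norm (fun i => by rw [Real.norm_eq_abs]; exact hb i) hl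

end Pool.Agent.Y356.DP
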