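import Mathlib
import Pool.Agent.Y356.DP.Basic

/-!
# Logarithmic sums of free sets
-/

set_option autoImplicit false

open Finset Filter Topology

namespace Pool.Agent.Y356.DP

open Pool.Agent.H413R3.KG
open Pool.Agent.H413R3.GP (cnt cnt_mono cnt_eq_sum)

/-- logarithmic sums -/
noncomputable def LS (A : Set ℕ) (N : ℕ) : ℝ :=
  ∑ n ∈ Finset.Icc 1 N, A.indicator (fun n => ((n : ℝ))⁻¹) n

lemma LS_nonneg (A : Set ℕ) (N : ℕ) : 0 ≤ LS A N :=
  Finset.sum_nonneg fun n _ => Set.indicator_nonneg (fun _ _ => by positivity) _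

lemma cnt_succ_ind (A : Set ℕ) (N : ℕ) :
    (cnt A (N + 1) : ℝ) = cnt A N + A.indicator (fun _ => (1 : ℝ)) (N + 1) := by
  rw [cnt_eq_sum, cnt_eq_sum, Finset.sum_Icc_succ_top (by omega)]

lemma LS_abel (A : Set ℕ) {N : ℕ} (hN : 1 ≤ N) :
    LS A N = (cnt A N : ℝ) / N + ∑ n ∈ Finset.Ico 1 N, (cnt A n : ℝ) / (n * (n + 1)) := by
  induction N, hN using Nat.le_induction with
  | base =>
    have h := cnt_succ_ind A 0
    rw [cnt_zero] at h
    simp only [zero_add, Nat.cast_zero] at h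
    unfold LS
    simp only [Finset.Icc_self, Finset.sum_singleton, Nat.cast_one, div_one, Finset.Ico_self,
      Finset.sum_empty, add_zero, h]
    by_cases h1 : 1 ∈ A <;> simp [h1]
  | succ N hN ih =>
    have hNr : (0 : ℝ) < N := by exact_mod_cast hN
    have h1 : LS A (N + 1) = LS A N + A.indicator (fun n => ((n : ℝ))⁻¹) (N + 1) := by
      unfold LS
      rw [Finset.sum_Icc_succ_top (by omega)]
    have h2 : A.indicator (fun n => ((n : ℝ))⁻¹) (N + 1) =
        A.indicator (fun _ => (1 : ℝ)) (N + 1) / ((N : ℝ) + 1) := by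
      by_cases h : N + 1 ∈ A
      · rw [Set.indicator_of_mem h, Set.indicator_of_mem h]
        push_cast
        rw [one_div]
      · rw [Set.indicator_of_notMem h, Set.indicator_of_notMem h, zero_div]
    rw [h1, h2, ih, Finset.sum_Ico_succ_top hN, cnt_succ_ind]
    push_cast
    field_simp
    ring

lemma harm_eq (N : ℕ) : ∑ n ∈ Finset.Ico 1 N, (1 : ℝ) / (n + 1) ≤ Real.log N ∧
    Real.log N - 1 ≤ ∑ n ∈ Finset.Ico 1 N, (1 : ℝ) / (n + 1) := by
  rcases Nat.eq_zero_or_pos N with rfl | hN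
  · simp
  have h1 : ∑ n ∈ Finset.Ico 1 N, (1 : ℝ) / (n + 1) = (harmonic N : ℝ) - 1 := by
    induction N, hN using Nat.le_induction with
    | base => simp [harmonic_succ]
    | succ N hN ih =>
      rw [Finset.sum_Ico_succ_top hN, ih, harmonic_succ]
      push_cast
      rw [one_div]
      ring
  rw [h1]
  have h2 := harmonic_le_one_add_log N
  have h3 := log_add_one_le_harmonic N
  have h4 : Real.log N ≤ Real.log ((N : ℝ) + 1) := by
    apply Real.log_le_log (by exact_mod_cast hN)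
    linarith
  push_cast at h3
  constructor <;> linarith

lemma tele (N : ℕ) : ∑ n ∈ Finset.Ico 1 N, (1 : ℝ) / (n * (n + 1)) ≤ 1 := by
  rcases Nat.eq_zero_or_pos N with rfl | hN
  · simp
  have h1 : ∑ n ∈ Finset.Ico 1 N, (1 : ℝ) / (n * (n + 1)) = 1 - 1 / N := by
    induction N, hN using Nat.le_induction with
    | base => simp
    | succ N hN ih =>
      have hNr : (0 : ℝ) < N := by exact_mod_cast hN
      rw [Finset.sum_Ico_succ_top hN, ih]
      push_cast
      field_simp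
      ring
  rw [h1]
  have : (0 : ℝ) ≤ 1 / N := by positivity
  linarith

lemma LS_upper {A : Set ℕ} {a C : ℝ} (ha : 0 ≤ a) (hC : 0 ≤ C)
    (h : ∀ n : ℕ, (cnt A n : ℝ) ≤ a * n + C) {N : ℕ} (hN : 1 ≤ N) :
    LS A N ≤ a * Real.log N + (a + 2 * C) := by
  have hNr : (0 : ℝ) < N := by exact_mod_cast hN
  have hN1 : (1 : ℝ) ≤ N := by exact_mod_cast hN
  rw [LS_abel A hN]
  have h1 : (cnt A N : ℝ) / N ≤ a + C := by
    rw [div_le_iff₀ hNr]
    have := h N
    nlinarith
  have h2 : ∑ n ∈ Finset.Ico 1 N, (cnt A n : ℝ) / (n * (n + 1)) ≤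
      a * ∑ n ∈ Finset.Ico 1 N, (1 : ℝ) / (n + 1) + C * ∑ n ∈ Finset.Ico 1 N, (1 : ℝ) / (n * (n + 1)) := by
    rw [Finset.mul_sum, Finset.mul_sum, ← Finset.sum_add_distrib]
    refine Finset.sum_le_sum fun n hn => ?_
    rw [Finset.mem_Ico] at hn
    have hnr : (0 : ℝ) < n := by exact_mod_cast hn.1
    have e : a * (1 / ((n : ℝ) + 1)) + C * (1 / (n * (n + 1))) = (a * n + C) / (n * (n + 1)) := by
      field_simp
    rw [e]
    gcongr
    exact h n
  have h3 := (harm_eq N).1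
  have h4 := tele N
  have h5 : a * ∑ n ∈ Finset.Ico 1 N, (1 : ℝ) / (n + 1) ≤ a * Real.log N := by gcongr
  have h6 : C * ∑ n ∈ Finset.Ico 1 N, (1 : ℝ) / (n * (n + 1)) ≤ C * 1 := by gcongr
  linarith

lemma LS_lower {A : Set ℕ} {a C : ℝ} (ha : 0 ≤ a) (hC : 0 ≤ C)
    (h : ∀ n : ℕ, a * n - C ≤ (cnt A n : ℝ)) {N : ℕ} (hN : 1 ≤ N) :
    a * Real.log N - (a + C) ≤ LS A N := by
  rw [LS_abel A hN]
  have h1 : 0 ≤ (cnt A N : ℝ) / N := by positivity
  have h2 : a * ∑ n ∈ Finset.Ico 1 N, (1 : ℝ) / (n + 1) -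
      C * ∑ n ∈ Finset.Ico 1 N, (1 : ℝ) / (n * (n + 1)) ≤
      ∑ n ∈ Finset.Ico 1 N, (cnt A n : ℝ) / (n * (n + 1)) := by
    rw [Finset.mul_sum, Finset.mul_sum, ← Finset.sum_sub_distrib]
    refine Finset.sum_le_sum fun n hn => ?_
    rw [Finset.mem_Ico] at hn
    have hnr : (0 : ℝ) < n := by exact_mod_cast hn.1
    have e : a * (1 / ((n : ℝ) + 1)) - C * (1 / (n * (n + 1))) = (a * n - C) / (n * (n + 1)) := by
      field_simp
    rw [e]
    gcongr
    exact h n
  have h3 := (harm_eq N).2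
  have h4 := tele N
  have h5 : a * (Real.log N - 1) ≤ a * ∑ n ∈ Finset.Ico 1 N, (1 : ℝ) / (n + 1) := by gcongr
  have h6 : C * ∑ n ∈ Finset.Ico 1 N, (1 : ℝ) / (n * (n + 1)) ≤ C * 1 := by gcongr
  linarith

variable {F : Finset ℕ → Prop} {p₀ : ℕ}

lemma LS_free_le (hF : Pat F p₀) {K : ℕ} {A : Set ℕ} (hApos : ∀ n ∈ A, 1 ≤ n) (hA : Free F A)
    {M : ℝ} (hM : ∀ T ⊆ Nat.smoothNumbers K, Free F T → P K * W T ≤ M) (N : ℕ) :
    LS A N ≤ LS (Rough K) N * (M / P K) := by
  classical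
  have hS : LS A N = ∑ n ∈ (Finset.Icc 1 N).filter (· ∈ A), ((n : ℝ))⁻¹ := by
    unfold LS
    rw [Finset.sum_filter]
    refine Finset.sum_congr rfl fun n _ => ?_
    by_cases h : n ∈ A <;> simp [h]
  rw [hS, ← Finset.sum_fiberwise_of_maps_to (g := rg K) (t := Finset.Icc 1 N)]
  · unfold LS
    rw [Finset.sum_mul]
    refine Finset.sum_le_sum fun m hm => ?_
    rw [Finset.mem_Icc] at hm
    by_cases hmr : m ∈ Rough K
    · rw [Set.indicator_of_mem hmr]
      set Φ : Finset ℕ := ((Finset.Icc 1 N).filter (· ∈ A)).filter (fun n => rg K n = m) with hΦ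
      have hΦm : ∀ n ∈ Φ, 1 ≤ n ∧ n ∈ A ∧ rg K n = m := by
        intro n hn
        rw [hΦ, Finset.mem_filter, Finset.mem_filter, Finset.mem_Icc] at hn
        exact ⟨hn.1.1.1, hn.1.2, hn.2⟩
      have hinj : Set.InjOn (sm K) (Φ : Set ℕ) := by
        intro a ha b hb hab
        have h1 := hΦm a (Finset.mem_coe.1 ha)
        have h2 := hΦm b (Finset.mem_coe.1 hb)
        rw [← sm_mul_rg K (n := a) (by omega), ← sm_mul_rg K (n := b) (by omega), h1.2.2, h2.2.2, hab]
      have e1 : ∑ n ∈ Φ, ((n : ℝ))⁻¹ = ((m : ℝ))⁻¹ * ∑ t ∈ Φ.image (sm K), ((t : ℝ))⁻¹ := by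
        rw [Finset.sum_image (fun a ha b hb hab => hinj ha hb hab), Finset.mul_sum]
        refine Finset.sum_congr rfl fun n hn => ?_
        have h1 := hΦm n hn
        have h2 := sm_mul_rg K (n := n) (by omega)
        rw [h1.2.2] at h2
        have h3 : (n : ℝ) = sm K n * m := by exact_mod_cast h2.symm
        rw [h3, mul_inv, mul_comm]
      rw [e1]
      apply mul_le_mul_of_nonneg_left _ (by positivity)
      rw [← W_finset]
      have hsub : ((Φ.image (sm K) : Finset ℕ) : Set ℕ) ⊆ Nat.smoothNumbers K ∩ {t | t * m ∈ A} := by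
        intro t ht
        rw [Finset.mem_coe, Finset.mem_image] at ht
        obtain ⟨n, hn, rfl⟩ := ht
        have h1 := hΦm n hn
        refine ⟨sm_mem_smooth K n, ?_⟩
        show sm K n * m ∈ A
        rw [← h1.2.2, sm_mul_rg K (by omega)]
        exact h1.2.1
      have h2 : W ((Φ.image (sm K) : Finset ℕ) : Set ℕ) ≤ W (Nat.smoothNumbers K ∩ {t | t * m ∈ A}) :=
        W_mono hsub Set.inter_subset_left
      refine h2.trans ?_
      rw [le_div_iff₀ (P_pos K), mul_comm]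
      exact hM _ Set.inter_subset_left (free_mono Set.inter_subset_right (free_fibre hF hA hm.1))
    · rw [Set.indicator_of_notMem hmr, zero_mul]
      apply le_of_eq
      apply Finset.sum_eq_zero
      intro n hn
      exfalso
      rw [Finset.mem_filter, Finset.mem_filter, Finset.mem_Icc] at hn
      apply hmr
      rw [← hn.2]
      exact rg_mem_rough K (by omega)
  · intro n hn
    rw [Finset.mem_filter, Finset.mem_Icc] at hn
    rw [Finset.mem_Icc]
    exact ⟨rg_pos K (by omega), (rg_le K (by omega)).trans hn.1.2⟩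

lemma dens_cnt_upper {A : Set ℕ} {d : ℝ} (h : Dens A d) {ε : ℝ} (hε : 0 < ε) :
    ∃ C : ℝ, 0 ≤ C ∧ ∀ n : ℕ, (cnt A n : ℝ) ≤ (d + ε) * n + C := by
  have hd := dens_nonneg h
  obtain ⟨N0, hN0⟩ := dens_event h hε
  refine ⟨N0, by positivity, fun n => ?_⟩
  rcases le_or_gt N0 n with h1 | h1
  · have h2 := (abs_le.1 (hN0 n h1)).2
    have : (0 : ℝ) ≤ N0 := by positivity
    linarith
  · have h2 : (cnt A n : ℝ) ≤ n := by exact_mod_cast cnt_le A n
    have h3 : (n : ℝ) ≤ N0 := by exact_mod_cast h1.le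
    have h4 : 0 ≤ (d + ε) * (n : ℝ) := by positivity
    linarith

theorem upper_log (hF : Pat F p₀) {K : ℕ} {A : Set ℕ} (hApos : ∀ n ∈ A, 1 ≤ n) (hA : Free F A)
    {M : ℝ} (hM0 : 0 ≤ M) (hM : ∀ T ⊆ Nat.smoothNumbers K, Free F T → P K * W T ≤ M)
    {ε : ℝ} (hε : 0 < ε) : ∀ᶠ N : ℕ in atTop, LS A N ≤ (M + ε) * Real.log N := by
  have hP := P_pos K
  have hq : 0 ≤ M / P K := by positivity
  obtain ⟨C, hC, hb⟩ := dens_cnt_upper (rough_dens K) (ε := ε / (2 * (M / P K + 1))) (by positivity)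
  set ε1 : ℝ := ε / (2 * (M / P K + 1)) with hε1
  have hε10 : 0 < ε1 := by positivity
  have h1 : M / P K * ε1 ≤ ε / 2 := by
    rw [hε1, mul_div_assoc', div_le_div_iff₀ (by positivity) (by norm_num)]
    nlinarith
  have hlog : Tendsto (fun N : ℕ => Real.log N) atTop atTop :=
    Real.tendsto_log_atTop.comp tendsto_natCast_atTop_atTop
  filter_upwards [eventually_ge_atTop 1, hlog.eventually_ge_atTop
    (2 / ε * (M / P K * (P K + ε1 + 2 * C)))] with N hN hl
  have h2 := LS_free_le hF hApos hA hM N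
  have h3 := LS_upper (a := P K + ε1) (by positivity) hC hb hN
  have hl0 : 0 ≤ Real.log N := Real.log_nonneg (by exact_mod_cast hN)
  have h4 : LS (Rough K) N * (M / P K) ≤ ((P K + ε1) * Real.log N + (P K + ε1 + 2 * C)) * (M / P K) :=
    mul_le_mul_of_nonneg_right h3 hq
  have h5 : M / P K * (P K + ε1 + 2 * C) ≤ ε / 2 * Real.log N := by
    have := mul_le_mul_of_nonneg_left hl (by positivity : 0 ≤ ε / 2)
    have e : ε / 2 * (2 / ε * (M / P K * (P K + ε1 + 2 * C))) = M / P K * (P K + ε1 + 2 * C) := by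
      field_simp
    rw [e] at this
    exact this
  have h6 : M / P K * P K = M := div_mul_cancel₀ _ hP.ne'
  have h7 : M / P K * ε1 * Real.log N ≤ ε / 2 * Real.log N := by gcongr
  calc LS A N ≤ ((P K + ε1) * Real.log N + (P K + ε1 + 2 * C)) * (M / P K) := h2.trans h4
    _ = (M / P K * P K) * Real.log N + M / P K * ε1 * Real.log N +
        M / P K * (P K + ε1 + 2 * C) := by ring
    _ ≤ M * Real.log N + ε / 2 * Real.log N + ε / 2 * Real.log N := by
        rw [h6]
        linarith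
    _ = _ := by ring

/-- lower densities are at most the logarithmic bound -/
theorem lower_le {A : Set ℕ} {s δ : ℝ} (hδ0 : 0 ≤ δ)
    (hs : ∀ ε > 0, ∀ᶠ N : ℕ in atTop, LS A N ≤ (s + ε) * Real.log N)
    (hδ : ∀ᶠ N : ℕ in atTop, δ * N ≤ cnt A N) : δ ≤ s := by
  rw [eventually_atTop] at hδ
  obtain ⟨N0, hN0⟩ := hδ
  have hb : ∀ n : ℕ, δ * n - δ * N0 ≤ (cnt A n : ℝ) := by
    intro n
    rcases le_or_gt N0 n with h | h
    · have := hN0 n h
      have h1 : 0 ≤ δ * (N0 : ℝ) := by positivity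
      linarith
    · have h1 : (n : ℝ) ≤ N0 := by exact_mod_cast h.le
      have h2 : δ * (n : ℝ) ≤ δ * N0 := by gcongr
      have h3 : (0 : ℝ) ≤ cnt A n := by positivity
      linarith
  apply le_of_forall_pos_le_add
  intro ε hε
  have hlog : Tendsto (fun N : ℕ => Real.log N) atTop atTop :=
    Real.tendsto_log_atTop.comp tendsto_natCast_atTop_atTop
  obtain ⟨N, ⟨h1, h2⟩, h3⟩ := (((hs (ε / 2) (by positivity)).and (eventually_ge_atTop 1)).and
    (hlog.eventually_ge_atTop (2 / ε * (δ + δ * N0) + 1))).exists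
  have h4 := LS_lower (a := δ) hδ0 (by positivity : 0 ≤ δ * (N0 : ℝ)) hb h2
  have hl : 0 < Real.log N := by
    have : 0 ≤ 2 / ε * (δ + δ * N0) := by positivity
    linarith
  have h5 : δ + δ * N0 ≤ ε / 2 * Real.log N := by
    have h6 : 2 / ε * (δ + δ * N0) ≤ Real.log N := by linarith
    have := mul_le_mul_of_nonneg_left h6 (by positivity : 0 ≤ ε / 2)
    have e : ε / 2 * (2 / ε * (δ + δ * N0)) = δ + δ * N0 := by field_simp
    rw [e] at this
    exact this
  have h7 : δ * Real.log N ≤ (s + ε) * Real.log N := by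
    calc δ * Real.log N ≤ LS A N + (δ + δ * N0) := by linarith
      _ ≤ (s + ε / 2) * Real.log N + ε / 2 * Real.log N := by linarith
      _ = _ := by ring
  exact le_of_mul_le_mul_right h7 hl

end Pool.Agent.Y356.DP
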