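import Mathlib
import Pool.Agent.Y356.DP.Log

/-!
# The threshold density of a family of multiplicative patterns
-/

set_option autoImplicit false

open Finset Filter Topology

namespace Pool.Agent.Y356.DP

open Pool.Agent.H413R3.KG
open Pool.Agent.H413R3.GP (cnt cnt_mono cnt_eq_sum)

variable {F : Finset ℕ → Prop} {p₀ : ℕ}

/-- infinite optimisation value -/
noncomputable def MF (F : Finset ℕ → Prop) (K : ℕ) : ℝ :=
  sSup {x : ℝ | ∃ T : Set ℕ, T ⊆ Nat.smoothNumbers K ∧ Free F T ∧ x = P K * W T}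

lemma bdd_MF (F : Finset ℕ → Prop) (K : ℕ) : BddAbove {x : ℝ | ∃ T : Set ℕ,
    T ⊆ Nat.smoothNumbers K ∧ Free F T ∧ x = P K * W T} := by
  refine ⟨1, ?_⟩
  rintro x ⟨T, hT, _, rfl⟩
  exact PW_le_one hT

lemma le_MF {K : ℕ} {T : Set ℕ} (hT : T ⊆ Nat.smoothNumbers K) (hg : Free F T) :
    P K * W T ≤ MF F K := le_csSup (bdd_MF F K) ⟨T, hT, hg, rfl⟩

lemma MF_nonneg (hF : Pat F p₀) (K : ℕ) : 0 ≤ MF F K := by
  refine le_trans ?_ (le_MF (F := F) (K := K) (T := ∅) (Set.empty_subset _) (free_empty hF))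
  exact mul_nonneg (P_pos K).le (W_nonneg _)

lemma MF_le_one (hF : Pat F p₀) (K : ℕ) : MF F K ≤ 1 := by
  apply csSup_le
  · exact ⟨_, ∅, Set.empty_subset _, free_empty hF, rfl⟩
  · rintro x ⟨T, hT, _, rfl⟩
    exact PW_le_one hT

lemma exists_MF (hF : Pat F p₀) (K : ℕ) {ε : ℝ} (hε : 0 < ε) :
    ∃ T : Set ℕ, T ⊆ Nat.smoothNumbers K ∧ Free F T ∧ MF F K - ε < P K * W T := by
  have hne : {x : ℝ | ∃ T : Set ℕ, T ⊆ Nat.smoothNumbers K ∧ Free F T ∧
      x = P K * W T}.Nonempty := ⟨_, ∅, Set.empty_subset _, free_empty hF, rfl⟩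
  obtain ⟨x, ⟨T, hT, hg, rfl⟩, hx⟩ := exists_lt_of_lt_csSup hne
    (show MF F K - ε < sSup _ from by unfold MF; linarith)
  exact ⟨T, hT, hg, hx⟩

/-- finite optimisation value -/
noncomputable def mF (F : Finset ℕ → Prop) (K : ℕ) : ℝ :=
  sSup {x : ℝ | ∃ T : Finset ℕ, T ⊆ (Q K).divisors ∧ Free F (T : Set ℕ) ∧
    x = (∏ p ∈ Nat.primesBelow K, (1 - (p : ℝ)⁻¹)) * ∑ t ∈ T, ((t : ℝ))⁻¹}

lemma bdd_mF (K : ℕ) : ∀ x ∈ {x : ℝ | ∃ T : Finset ℕ, T ⊆ (Q K).divisors ∧
    Free F (T : Set ℕ) ∧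
    x = (∏ p ∈ Nat.primesBelow K, (1 - (p : ℝ)⁻¹)) * ∑ t ∈ T, ((t : ℝ))⁻¹}, x ≤ MF F K := by
  rintro x ⟨T, hT, hg, rfl⟩
  have hTs : (T : Set ℕ) ⊆ Nat.smoothNumbers K :=
    (Finset.coe_subset.2 hT).trans (div_sub K)
  have := le_MF (F := F) hTs hg
  rw [W_finset] at this
  exact this

lemma mF_nonempty (hF : Pat F p₀) (K : ℕ) : {x : ℝ | ∃ T : Finset ℕ, T ⊆ (Q K).divisors ∧
    Free F (T : Set ℕ) ∧
    x = (∏ p ∈ Nat.primesBelow K, (1 - (p : ℝ)⁻¹)) * ∑ t ∈ T, ((t : ℝ))⁻¹}.Nonempty := by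
  refine ⟨_, ∅, Finset.empty_subset _, ?_, rfl⟩
  rw [Finset.coe_empty]
  exact free_empty hF

lemma mF_le_MF (hF : Pat F p₀) (K : ℕ) : mF F K ≤ MF F K :=
  csSup_le (mF_nonempty hF K) (bdd_mF K)

lemma MF_le_mF (hF : Pat F p₀) (K : ℕ) : MF F K ≤ mF F K + (K : ℝ) / 2 ^ (K + 1) := by
  classical
  apply csSup_le
  · exact ⟨_, ∅, Set.empty_subset _, free_empty hF, rfl⟩
  · rintro x ⟨T, hT, hg, rfl⟩
    set G : Finset ℕ := (Q K).divisors.filter (· ∈ T) with hG
    have hGT : (G : Set ℕ) ⊆ T := by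
      intro t ht
      exact (Finset.mem_filter.1 (Finset.mem_coe.1 ht)).2
    have h1 : P K * W (G : Set ℕ) ≤ mF F K := by
      apply le_csSup ⟨_, bdd_mF K⟩
      refine ⟨G, Finset.filter_subset _ _, free_mono hGT hg, ?_⟩
      rw [W_finset]; rfl
    have h2 : W T ≤ W (G : Set ℕ) + W (Nat.smoothNumbers K \ ((Q K).divisors : Set ℕ)) := by
      unfold W
      rw [← (summable_of_smooth (hGT.trans hT)).tsum_add (summable_of_smooth Set.sdiff_subset)]
      refine (summable_of_smooth hT).tsum_le_tsum (fun t => ?_)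
        ((summable_of_smooth (hGT.trans hT)).add (summable_of_smooth Set.sdiff_subset))
      by_cases ht : t ∈ T
      · rw [Set.indicator_of_mem ht]
        by_cases hd : t ∈ (Q K).divisors
        · rw [Set.indicator_of_mem (show t ∈ (G : Set ℕ) from
            Finset.mem_coe.2 (Finset.mem_filter.2 ⟨hd, ht⟩))]
          have : 0 ≤ (Nat.smoothNumbers K \ ((Q K).divisors : Set ℕ)).indicator
            (fun t => ((t : ℝ))⁻¹) t := Set.indicator_nonneg (fun _ _ => by positivity) _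
          linarith
        · rw [Set.indicator_of_mem (show t ∈ Nat.smoothNumbers K \ ((Q K).divisors : Set ℕ) from
            ⟨hT ht, fun h => hd (Finset.mem_coe.1 h)⟩)]
          have : 0 ≤ (G : Set ℕ).indicator
            (fun t => ((t : ℝ))⁻¹) t := Set.indicator_nonneg (fun _ _ => by positivity) _
          linarith
      · rw [Set.indicator_of_notMem ht]
        exact add_nonneg (Set.indicator_nonneg (fun _ _ => by positivity) _)
          (Set.indicator_nonneg (fun _ _ => by positivity) _)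
    have h3 := mul_le_mul_of_nonneg_left h2 (P_pos K).le
    have h4 := tail_bound K
    rw [mul_add] at h3
    linarith

/-- natural densities are at most the logarithmic bound -/
theorem dens_le_log {A : Set ℕ} {s δ : ℝ}
    (hs : ∀ ε > 0, ∀ᶠ N : ℕ in atTop, LS A N ≤ (s + ε) * Real.log N)
    (hδ : Dens A δ) (hs0 : 0 ≤ s) : δ ≤ s := by
  apply le_of_forall_pos_le_add
  intro ε hε
  rcases le_or_gt δ ε with h | h
  · linarith
  · have h1 : δ - ε ≤ s := by
      apply lower_le (A := A) (by linarith) hs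
      obtain ⟨N0, hN0⟩ := dens_event hδ hε
      filter_upwards [eventually_ge_atTop N0] with N hN
      have := (abs_le.1 (hN0 N hN)).1
      linarith
    linarith

/-- Main theorem in working form. -/
theorem main (hF : Pat F p₀) : ∃ s : ℝ, 0 ≤ s ∧
    (∃ A : Set ℕ, (∀ n ∈ A, 1 ≤ n) ∧ Free F A ∧ Dens A s) ∧
    (∀ A : Set ℕ, (∀ n ∈ A, 1 ≤ n) → Free F A →
      ∀ ε > 0, ∀ᶠ N : ℕ in atTop, LS A N ≤ (s + ε) * Real.log N) ∧
    (∀ K : ℕ, 2 ≤ K → p₀ ≤ K →
      mF F K - 1 / ((K : ℝ) - 1) ≤ s ∧ s ≤ mF F K + (K : ℝ) / 2 ^ (K + 1)) := by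
  choose γ hγ using fun K => fr_dens_exists (k := 3) le_rfl K
  choose T' hT' hTg' hTM' using fun K : ℕ => exists_MF hF K (ε := 1 / ((K : ℝ) + 1)) (by positivity)
  have hbdd : BddBelow (Set.range (MF F)) := ⟨0, by rintro _ ⟨K, rfl⟩; exact MF_nonneg hF K⟩
  set s : ℝ := ⨅ K, MF F K with hs
  have hsM : ∀ K, s ≤ MF F K := fun K => ciInf_le hbdd K
  have hs0 : 0 ≤ s := le_ciInf fun K => MF_nonneg hF K
  -- logarithmic bound
  have hup : ∀ A : Set ℕ, (∀ n ∈ A, 1 ≤ n) → Free F A →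
      ∀ ε > 0, ∀ᶠ N : ℕ in atTop, LS A N ≤ (s + ε) * Real.log N := by
    intro A h1 h2 ε hε
    obtain ⟨K, hK⟩ := exists_lt_of_ciInf_lt (show ⨅ K, MF F K < s + ε / 2 by
      rw [← hs]; linarith)
    have h3 := upper_log (K := K) hF h1 h2 (MF_nonneg hF K) (fun T hT hg => le_MF hT hg)
      (ε := ε / 2) (by positivity)
    filter_upwards [h3, eventually_ge_atTop 1] with N hN hN1
    have hl0 : 0 ≤ Real.log N := Real.log_nonneg (by exact_mod_cast hN1)
    calc LS A N ≤ (MF F K + ε / 2) * Real.log N := hN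
      _ ≤ (s + ε) * Real.log N := by
          apply mul_le_mul_of_nonneg_right _ hl0
          linarith
  have hupd : ∀ (A : Set ℕ) (δ : ℝ), (∀ n ∈ A, 1 ≤ n) → Free F A → Dens A δ → δ ≤ s :=
    fun A δ h1 h2 h3 => dens_le_log (hup A h1 h2) h3 hs0
  -- product sets
  have hprod : ∀ K, p₀ ≤ K → ∀ T : Set ℕ, T ⊆ Nat.smoothNumbers K → Free F T → γ K * W T ≤ s :=
    fun K hK T h1 h2 => hupd (Base 3 K T) _ (fun n hn => hn.1) (base_free hF hK h2)
      (dens_base h1 (hγ K))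
  have hlow : ∀ K : ℕ, 2 ≤ K → p₀ ≤ K → (1 - 1 / ((K : ℝ) - 1)) * MF F K ≤ s := by
    intro K hK hp
    have hKr : (1 : ℝ) ≤ (K : ℝ) - 1 := by
      have : (2 : ℝ) ≤ K := by exact_mod_cast hK
      linarith
    have hc : 0 ≤ 1 - 1 / ((K : ℝ) - 1) := by
      have : 1 / ((K : ℝ) - 1) ≤ 1 := by rw [div_le_one (by linarith)]; exact hKr
      linarith
    apply le_of_forall_pos_le_add
    intro ε hε
    obtain ⟨T, h1, h2, h3⟩ := exists_MF hF K hε
    have h4 := hprod K hp T h1 h2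
    have h5 := fr_dens_ge (k := 3) le_rfl hK (hγ K)
    have h6 : P K * (1 - 1 / ((K : ℝ) - 1)) * W T ≤ γ K * W T :=
      mul_le_mul_of_nonneg_right h5 (W_nonneg _)
    have h7 : 1 - 1 / ((K : ℝ) - 1) ≤ 1 := by
      have : 0 ≤ 1 / ((K : ℝ) - 1) := by positivity
      linarith
    have h8 : (1 - 1 / ((K : ℝ) - 1)) * (MF F K - ε) ≤ (1 - 1 / ((K : ℝ) - 1)) * (P K * W T) :=
      mul_le_mul_of_nonneg_left h3.le hc
    nlinarith
  refine ⟨s, hs0, ?_, hup, fun K hK hp => ⟨?_, (hsM K).trans (MF_le_mF hF K)⟩⟩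
  · classical
    set T : ℕ → Set ℕ := fun K => if K < p₀ then ∅ else T' K with hTdef
    have hTlt : ∀ K, K < p₀ → T K = ∅ := fun K h => if_pos h
    have hTge : ∀ K, p₀ ≤ K → T K = T' K := fun K h => if_neg (by omega)
    have hT : ∀ K, T K ⊆ Nat.smoothNumbers K := by
      intro K
      rcases lt_or_ge K p₀ with h | h
      · rw [hTlt K h]; exact Set.empty_subset _
      · rw [hTge K h]; exact hT' K
    have hTg : ∀ K, Free F (T K) := by
      intro K
      rcases lt_or_ge K p₀ with h | h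
      · rw [hTlt K h]; exact free_empty hF
      · rw [hTge K h]; exact hTg' K
    apply chain hF T hT hTg hTlt γ hγ
    -- convergence
    have hlim : Tendsto (fun K : ℕ => (1 - 1 / ((K : ℝ) - 1)) * (s - 1 / ((K : ℝ) + 1))) atTop
        (𝓝 ((1 - 0) * (s - 0))) := by
      refine Tendsto.mul (Tendsto.sub tendsto_const_nhds ?_) (Tendsto.sub tendsto_const_nhds
        tendsto_one_div_add_atTop_nhds_zero_nat)
      have : Tendsto (fun K : ℕ => (K : ℝ) - 1) atTop atTop :=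
        tendsto_atTop_add_const_right _ (-1) tendsto_natCast_atTop_atTop
      exact tendsto_const_nhds.div_atTop this
    rw [sub_zero, one_mul, sub_zero] at hlim
    refine tendsto_of_tendsto_of_tendsto_of_le_of_le' hlim tendsto_const_nhds ?_ ?_
    · filter_upwards [eventually_ge_atTop 2, eventually_ge_atTop p₀] with K hK hp
      have hKr : (1 : ℝ) ≤ (K : ℝ) - 1 := by
        have : (2 : ℝ) ≤ K := by exact_mod_cast hK
        linarith
      have hc : 0 ≤ 1 - 1 / ((K : ℝ) - 1) := by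
        have : 1 / ((K : ℝ) - 1) ≤ 1 := by rw [div_le_one (by linarith)]; exact hKr
        linarith
      have h5 := fr_dens_ge (k := 3) le_rfl hK (hγ K)
      have h6 : P K * (1 - 1 / ((K : ℝ) - 1)) * W (T K) ≤ γ K * W (T K) :=
        mul_le_mul_of_nonneg_right h5 (W_nonneg _)
      have h7 := hTM' K
      rw [← hTge K hp] at h7
      have h8 := hsM K
      have h9 : (1 - 1 / ((K : ℝ) - 1)) * (s - 1 / ((K : ℝ) + 1)) ≤
          (1 - 1 / ((K : ℝ) - 1)) * (P K * W (T K)) :=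
        mul_le_mul_of_nonneg_left (by linarith) hc
      linarith [h6, h9]
    · filter_upwards [eventually_ge_atTop p₀] with K hp
      exact hprod K hp (T K) (hT K) (hTg K)
  · have h1 := hlow K hK hp
    have h2 := mF_le_MF hF K
    have h3 := MF_le_one hF K
    have hKr : (0 : ℝ) < (K : ℝ) - 1 := by
      have : (2 : ℝ) ≤ K := by exact_mod_cast hK
      linarith
    have h4 : 1 / ((K : ℝ) - 1) * MF F K ≤ 1 / ((K : ℝ) - 1) * 1 :=
      mul_le_mul_of_nonneg_left h3 (by positivity)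
    linarith

/-- convergence from the two-sided bounds -/
theorem tendsto_of_rate {m : ℕ → ℝ} {s : ℝ} {p₀ : ℕ} (hrate : ∀ K : ℕ, 2 ≤ K → p₀ ≤ K →
    m K - 1 / ((K : ℝ) - 1) ≤ s ∧ s ≤ m K + (K : ℝ) / 2 ^ (K + 1)) :
    Tendsto m atTop (𝓝 s) := by
  have hl1 : Tendsto (fun K : ℕ => s - (K : ℝ) / 2 ^ (K + 1)) atTop (𝓝 s) := by
    have h1 : Tendsto (fun K : ℕ => (K : ℝ) / 2 ^ K) atTop (𝓝 0) := by
      have := tendsto_pow_const_div_const_pow_of_one_lt 1 (r := (2 : ℝ)) (by norm_num)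
      simpa using this
    have h2 : Tendsto (fun K : ℕ => (K : ℝ) / 2 ^ (K + 1)) atTop (𝓝 0) := by
      have h3 := h1.mul_const (1 / 2 : ℝ)
      rw [zero_mul] at h3
      refine h3.congr fun K => ?_
      rw [pow_succ]; field_simp
    simpa using h2.const_sub s
  have hl2 : Tendsto (fun K : ℕ => s + 1 / ((K : ℝ) - 1)) atTop (𝓝 s) := by
    have h1 : Tendsto (fun K : ℕ => (K : ℝ) - 1) atTop atTop :=
      tendsto_atTop_add_const_right _ (-1) tendsto_natCast_atTop_atTop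
    have h2 : Tendsto (fun K : ℕ => 1 / ((K : ℝ) - 1)) atTop (𝓝 0) :=
      tendsto_const_nhds.div_atTop h1
    simpa using h2.const_add s
  refine tendsto_of_tendsto_of_tendsto_of_le_of_le' hl1 hl2 ?_ ?_
  · filter_upwards [eventually_ge_atTop 2, eventually_ge_atTop p₀] with K hK hp
    linarith [(hrate K hK hp).2]
  · filter_upwards [eventually_ge_atTop 2, eventually_ge_atTop p₀] with K hK hp
    linarith [(hrate K hK hp).1]

/-- every density below the threshold is attained -/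
theorem sub_dens {A : Set ℕ} (hApos : ∀ n ∈ A, 1 ≤ n) (hA : Free F A) {s α : ℝ} (hAd : Dens A s)
    (hα : 0 ≤ α) (hle : α ≤ s) :
    ∃ B : Set ℕ, (∀ n ∈ B, 1 ≤ n) ∧ Free F B ∧ Dens B α := by
  rcases eq_or_lt_of_le (hα.trans hle) with h0 | h0
  · have hα0 : α = s := by linarith
    exact ⟨A, hApos, hA, hα0 ▸ hAd⟩
  · obtain ⟨I, hI⟩ := exists_dens (ρ := α / s) (by positivity) (by
      rw [div_le_one h0]; exact hle)
    have h1 := dens_sel hAd hI
    rw [div_mul_cancel₀ _ h0.ne'] at h1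
    exact ⟨Sel A I, fun n hn => hApos n hn.1, free_mono (fun n hn => hn.1) hA, h1⟩

end Pool.Agent.Y356.DP
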