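import Mathlib
import Pool.Agent.Y356.DP.Main
import Pool.Agent.H413R3.KGOpt

/-!
# Geometric progressions with restricted ratios as a family of patterns
-/

set_option autoImplicit false

open Finset Filter Topology

namespace Pool.Agent.Y356.DP

open Pool.Agent.H413R3.KG
open Pool.Agent.H413R3.GP (cnt cnt_mono cnt_eq_sum)

/-- `X` consists of the `k` terms of a geometric progression of positive integers whose ratio is
greater than `1` and satisfies `R`. -/
def IsGP (k : ℕ) (R : ℚ → Prop) (X : Finset ℕ) : Prop :=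
  X.card = k ∧ (∀ x ∈ X, 1 ≤ x) ∧ ∃ a ∈ X, ∃ b ∈ X, a < b ∧ R ((b : ℚ) / a) ∧
    ∀ i ∈ Finset.range k, ∃ c ∈ X, c * a ^ i = a * b ^ i

instance (k : ℕ) (R : ℚ → Prop) [DecidablePred R] : DecidablePred (IsGP k R) := fun X => by
  unfold IsGP; infer_instance

lemma gp_terms {k : ℕ} {R : ℚ → Prop} {X : Finset ℕ} (h : IsGP k R X) :
    ∃ (a b : ℕ) (c : ℕ → ℕ), 1 ≤ a ∧ a < b ∧ R ((b : ℚ) / a) ∧
      (∀ i < k, 1 ≤ c i ∧ c i * a ^ i = a * b ^ i) ∧ X = (Finset.range k).image c := by
  obtain ⟨hcard, hpos, a, ha, b, hb, hab, hR, hc⟩ := h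
  have hex : ∀ i, ∃ c : ℕ, i < k → c ∈ X ∧ c * a ^ i = a * b ^ i := by
    intro i
    by_cases hi : i < k
    · obtain ⟨c, h1, h2⟩ := hc i (Finset.mem_range.2 hi)
      exact ⟨c, fun _ => ⟨h1, h2⟩⟩
    · exact ⟨0, fun h => absurd h hi⟩
  choose c hc' using hex
  have ha1 := hpos a ha
  have hinj : Set.InjOn c (Finset.range k : Set ℕ) := by
    intro i hi j hj hij
    rw [Finset.mem_coe, Finset.mem_range] at hi hj
    by_contra hne
    wlog hlt : i < j generalizing i j with H
    · exact H hj hi hij.symm (fun h => hne h.symm) (by omega)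
    have h1 := (hc' i hi).2
    have h2 := (hc' j hj).2
    rw [hij] at h1
    obtain ⟨l, rfl⟩ : ∃ l, j = i + l := ⟨j - i, by omega⟩
    have h3 : (a * b ^ i) * a ^ l = (a * b ^ i) * b ^ l := by
      calc (a * b ^ i) * a ^ l = c (i + l) * a ^ i * a ^ l := by rw [h1]
        _ = c (i + l) * a ^ (i + l) := by rw [pow_add]; ring
        _ = a * b ^ (i + l) := h2
        _ = _ := by rw [pow_add]; ring
    have hb1 : 0 < b := by omega
    have h4 : a ^ l = b ^ l := Nat.eq_of_mul_eq_mul_left (by positivity) h3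
    have h5 : a ^ l < b ^ l := Nat.pow_lt_pow_left hab (by omega)
    omega
  refine ⟨a, b, c, ha1, hab, hR, fun i hi => ⟨hpos _ (hc' i hi).1, (hc' i hi).2⟩, ?_⟩
  symm
  apply Finset.eq_of_subset_of_card_le
  · intro x hx
    obtain ⟨i, hi, rfl⟩ := Finset.mem_image.1 hx
    exact (hc' i (Finset.mem_range.1 hi)).1
  · rw [Finset.card_image_of_injOn hinj, Finset.card_range, hcard]

/-- geometric progressions with at least three terms are patterns in the sense of `Pat` -/
theorem pat_gp {k : ℕ} (hk : 3 ≤ k) (R : ℚ → Prop) : Pat (IsGP k R) 0 := by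
  refine ⟨?_, ?_, ?_, ?_⟩
  · rintro ⟨h, -⟩
    simp at h
    omega
  · intro X hX
    exact hX.2.1
  · intro X m hm
    have hinj : Function.Injective (fun x : ℕ => m * x) := fun x y h =>
      Nat.eq_of_mul_eq_mul_left hm h
    have hR : ∀ a b : ℕ, ((m * b : ℕ) : ℚ) / ((m * a : ℕ) : ℚ) = (b : ℚ) / a := by
      intro a b
      have hm0 : (m : ℚ) ≠ 0 := by
        have : m ≠ 0 := by omega
        exact_mod_cast this
      push_cast
      exact mul_div_mul_left _ _ hm0
    have hcc : ∀ a b c i : ℕ, (m * c) * (m * a) ^ i = (m * a) * (m * b) ^ i ↔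
        c * a ^ i = a * b ^ i := by
      intro a b c i
      rw [mul_pow, mul_pow]
      have e1 : m * c * (m ^ i * a ^ i) = m * m ^ i * (c * a ^ i) := by ring
      have e2 : m * a * (m ^ i * b ^ i) = m * m ^ i * (a * b ^ i) := by ring
      rw [e1, e2]
      exact ⟨fun h => Nat.eq_of_mul_eq_mul_left (by positivity) h, fun h => by rw [h]⟩
    unfold IsGP
    rw [Finset.card_image_of_injective _ hinj]
    refine and_congr Iff.rfl (and_congr ?_ ?_)
    · constructor
      · intro h x hx
        have := h _ (Finset.mem_image_of_mem _ hx)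
        exact Nat.pos_of_ne_zero fun h0 => by rw [h0] at this; simp at this
      · intro h y hy
        obtain ⟨x, hx, rfl⟩ := Finset.mem_image.1 hy
        exact Nat.mul_pos hm (h x hx)
    · constructor
      · rintro ⟨a', ha', b', hb', hab, hRR, hc⟩
        obtain ⟨a, ha, rfl⟩ := Finset.mem_image.1 ha'
        obtain ⟨b, hb, rfl⟩ := Finset.mem_image.1 hb'
        refine ⟨a, ha, b, hb, Nat.lt_of_mul_lt_mul_left hab, ?_, fun i hi => ?_⟩
        · rw [hR a b] at hRR; exact hRR
        · obtain ⟨c', hc', h⟩ := hc i hi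
          obtain ⟨c, hc1, rfl⟩ := Finset.mem_image.1 hc'
          exact ⟨c, hc1, (hcc a b c i).1 h⟩
      · rintro ⟨a, ha, b, hb, hab, hRR, hc⟩
        refine ⟨m * a, Finset.mem_image_of_mem _ ha, m * b, Finset.mem_image_of_mem _ hb,
          Nat.mul_lt_mul_of_pos_left hab hm, by rw [hR]; exact hRR, fun i hi => ?_⟩
        obtain ⟨c, hc1, h⟩ := hc i hi
        exact ⟨m * c, Finset.mem_image_of_mem _ hc1, (hcc a b c i).2 h⟩
  · intro X hX p hp _ hsq
    obtain ⟨a, b, c, ha, hab, -, hc, rfl⟩ := gp_terms hX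
    have hb1 : 0 < b := by omega
    have hrel : ∀ i, i + 2 < k → c (i + 1) ^ 2 = c i * c (i + 2) := by
      intro i hi
      have h0 := (hc i (by omega)).2
      have h1 := (hc (i + 1) (by omega)).2
      have h2 := (hc (i + 2) hi).2
      have e : (a ^ (i + 1)) ^ 2 * c (i + 1) ^ 2 = (a ^ (i + 1)) ^ 2 * (c i * c (i + 2)) := by
        calc (a ^ (i + 1)) ^ 2 * c (i + 1) ^ 2 = (c (i + 1) * a ^ (i + 1)) ^ 2 := by ring
          _ = (a * b ^ (i + 1)) ^ 2 := by rw [h1]
          _ = (a * b ^ i) * (a * b ^ (i + 2)) := by ring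
          _ = (c i * a ^ i) * (c (i + 2) * a ^ (i + 2)) := by rw [h0, h2]
          _ = _ := by ring
      exact Nat.eq_of_mul_eq_mul_left (by positivity) e
    have hv : ∀ i < k, (c i).factorization p = (c 0).factorization p := by
      apply ap_const (k := k) (by omega) (v := fun i => (c i).factorization p)
      · intro i hi
        exact fac_rel (hc i (by omega)).1 (hc (i + 2) hi).1 (hrel i hi) p
      · intro i hi
        have h1 := hsq (c i) (Finset.mem_image_of_mem _ (Finset.mem_range.2 hi))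
        have h2 : c i ≠ 0 := by have := (hc i hi).1; omega
        rw [hp.pow_dvd_iff_le_factorization h2] at h1
        show (c i).factorization p ≤ k - 2
        omega
    intro x hx y hy hpx
    obtain ⟨i, hi, rfl⟩ := Finset.mem_image.1 hx
    obtain ⟨j, hj, rfl⟩ := Finset.mem_image.1 hy
    rw [Finset.mem_range] at hi hj
    have h1 : c i ≠ 0 := by have := (hc i hi).1; omega
    have h2 : c j ≠ 0 := by have := (hc j hj).1; omega
    rw [hp.dvd_iff_one_le_factorization h1, hv i hi] at hpx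
    rw [hp.dvd_iff_one_le_factorization h2, hv j hj]
    exact hpx

/-- `A` contains `a, a r, ..., a r ^ (k - 1)` with a real ratio `r > 1` which satisfies `R`. -/
def HasGPR (k : ℕ) (R : ℚ → Prop) (A : Set ℕ) : Prop :=
  ∃ a ∈ A, ∃ r : ℝ, 1 < r ∧ (∀ q : ℚ, (q : ℝ) = r → R q) ∧
    ∀ i < k, ∃ n ∈ A, (n : ℝ) = a * r ^ i

theorem hasGPR_iff {k : ℕ} (hk : 3 ≤ k) (R : ℚ → Prop) {A : Set ℕ} (hA : ∀ n ∈ A, 1 ≤ n) :
    HasGPR k R A ↔ ¬ Free (IsGP k R) A := by
  constructor
  · rintro ⟨a, ha, r, hr, hR, hall⟩ hfree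
    have hex : ∀ i, ∃ n : ℕ, i < k → n ∈ A ∧ (n : ℝ) = a * r ^ i := by
      intro i
      by_cases hi : i < k
      · obtain ⟨n, hn, he⟩ := hall i hi
        exact ⟨n, fun _ => ⟨hn, he⟩⟩
      · exact ⟨0, fun h => absurd h hi⟩
    choose f hf using hex
    have ha1 := hA a ha
    have ha0 : (0 : ℝ) < a := by exact_mod_cast ha1
    have hf0 : f 0 = a := by
      have := (hf 0 (by omega)).2
      rw [pow_zero, mul_one] at this
      exact_mod_cast this
    have hf1 := (hf 1 (by omega)).2
    rw [pow_one] at hf1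
    have hrr : ((f 1 : ℚ) / (a : ℚ) : ℚ) = r := by
      push_cast
      rw [hf1]
      field_simp
    have hlt : a < f 1 := by
      have : (a : ℝ) < f 1 := by rw [hf1]; nlinarith
      exact_mod_cast this
    have hinj : Set.InjOn f (Finset.range k : Set ℕ) := by
      intro i hi j hj hij
      rw [Finset.mem_coe, Finset.mem_range] at hi hj
      have h1 := (hf i hi).2
      have h2 := (hf j hj).2
      rw [hij, h2] at h1
      have h3 : r ^ j = r ^ i := mul_left_cancel₀ ha0.ne' h1
      exact (pow_right_injective₀ (by linarith) hr.ne' h3).symm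
    apply hfree ((Finset.range k).image f)
    · refine ⟨by rw [Finset.card_image_of_injOn hinj, Finset.card_range], ?_, a, ?_, f 1, ?_, hlt,
        hR _ hrr, ?_⟩
      · intro x hx
        obtain ⟨i, hi, rfl⟩ := Finset.mem_image.1 hx
        exact hA _ (hf i (Finset.mem_range.1 hi)).1
      · rw [← hf0]; exact Finset.mem_image_of_mem _ (Finset.mem_range.2 (by omega))
      · exact Finset.mem_image_of_mem _ (Finset.mem_range.2 (by omega))
      · intro i hi
        refine ⟨f i, Finset.mem_image_of_mem _ hi, ?_⟩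
        have h1 := (hf i (Finset.mem_range.1 hi)).2
        have : (f i : ℝ) * a ^ i = a * (f 1 : ℝ) ^ i := by
          rw [h1, hf1, mul_pow]; ring
        exact_mod_cast this
    · intro x hx
      obtain ⟨i, hi, rfl⟩ := Finset.mem_image.1 (Finset.mem_coe.1 hx)
      exact (hf i (Finset.mem_range.1 hi)).1
  · intro h
    unfold Free at h
    push Not at h
    obtain ⟨X, hX, hXA⟩ := h
    have hX' := hX
    obtain ⟨-, hpos, a, ha, b, hb, hab, hR, hc⟩ := hX'
    have ha0 : (0 : ℝ) < a := by exact_mod_cast hpos a ha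
    refine ⟨a, hXA (Finset.mem_coe.2 ha), (b : ℝ) / a, ?_, ?_, ?_⟩
    · rw [one_lt_div ha0]; exact_mod_cast hab
    · intro q hq
      have : q = (b : ℚ) / a := by
        have h1 : (q : ℝ) = (((b : ℚ) / a : ℚ) : ℝ) := by push_cast; exact hq
        exact_mod_cast h1
      rw [this]; exact hR
    · intro i hi
      obtain ⟨c, hc1, h2⟩ := hc i (Finset.mem_range.2 hi)
      refine ⟨c, hXA (Finset.mem_coe.2 hc1), ?_⟩
      have h2' : (c : ℝ) * a ^ i = a * b ^ i := by exact_mod_cast h2
      rw [div_pow]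
      field_simp
      linarith

end Pool.Agent.Y356.DP
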