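import Mathlib
import Pool.Agent.Y356.DP.GPk

/-!
# Nonconstant solutions of systems of multiplicative equations as a family of patterns
-/

set_option autoImplicit false

open Finset Filter Topology

namespace Pool.Agent.Y356.DP

open Pool.Agent.H413R3.KG

/-- The multiplicative system `∏ j, x j ^ a i j = 1` for all `i`, written without negative
exponents. -/
def Sol {m n : ℕ} (a : Fin m → Fin n → ℤ) (x : Fin n → ℕ) : Prop :=
  ∀ i, ∏ j, x j ^ (a i j).toNat = ∏ j, x j ^ (-a i j).toNat

/-- the value sets of nonconstant solutions in positive integers -/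
def SolSet {m n : ℕ} (a : Fin m → Fin n → ℤ) (X : Finset ℕ) : Prop :=
  (∀ x ∈ X, 1 ≤ x) ∧ ∃ x ∈ Fintype.piFinset (fun _ : Fin n => X),
    (∃ j l, x j ≠ x l) ∧ Finset.univ.image x = X ∧ Sol a x

instance {m n : ℕ} (a : Fin m → Fin n → ℤ) : DecidablePred (Sol a) := fun x => by
  unfold Sol; infer_instance

instance {m n : ℕ} (a : Fin m → Fin n → ℤ) : DecidablePred (SolSet a) := fun X => by
  unfold SolSet; infer_instance

lemma sum_toNat {m n : ℕ} {a : Fin m → Fin n → ℤ} (h0 : ∀ i, ∑ j, a i j = 0) (i : Fin m) :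
    ∑ j, (a i j).toNat = ∑ j, (-a i j).toNat := by
  have h : ((∑ j, (a i j).toNat : ℕ) : ℤ) - ((∑ j, (-a i j).toNat : ℕ) : ℤ) = 0 := by
    push_cast
    rw [← Finset.sum_sub_distrib, ← h0 i]
    refine Finset.sum_congr rfl fun j _ => ?_
    omega
  omega

lemma sol_dil {m n : ℕ} {a : Fin m → Fin n → ℤ} (h0 : ∀ i, ∑ j, a i j = 0) {c : ℕ} (hc : 1 ≤ c)
    (x : Fin n → ℕ) : Sol a (fun j => c * x j) ↔ Sol a x := by
  unfold Sol
  refine forall_congr' fun i => ?_
  simp only [mul_pow]
  rw [Finset.prod_mul_distrib, Finset.prod_mul_distrib, Finset.prod_pow_eq_pow_sum,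
    Finset.prod_pow_eq_pow_sum, sum_toNat h0 i]
  exact ⟨fun h => Nat.eq_of_mul_eq_mul_left (by positivity) h, fun h => by rw [h]⟩

theorem pat_sol {m n : ℕ} (a : Fin m → Fin n → ℤ) (h0 : ∀ i, ∑ j, a i j = 0)
    (h1 : ∀ e : Fin n → ℤ, (∀ j, e j = 0 ∨ e j = 1) → (∀ i, ∑ j, a i j * e j = 0) →
      ∀ j l, e j = e l) : Pat (SolSet a) 0 := by
  refine ⟨?_, ?_, ?_, ?_⟩
  · rintro ⟨-, x, hx, ⟨j, l, hjl⟩, -, -⟩
    have := Fintype.mem_piFinset.1 hx j
    simp at this
  · exact fun X hX => hX.1
  · intro X c hc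
    have hinj : Function.Injective (fun x : ℕ => c * x) := fun x y h =>
      Nat.eq_of_mul_eq_mul_left hc h
    unfold SolSet
    refine and_congr ?_ ?_
    · constructor
      · intro h x hx
        have := h _ (Finset.mem_image_of_mem _ hx)
        exact Nat.pos_of_ne_zero fun h0 => by rw [h0] at this; simp at this
      · intro h y hy
        obtain ⟨x, hx, rfl⟩ := Finset.mem_image.1 hy
        exact Nat.mul_pos hc (h x hx)
    · constructor
      · rintro ⟨x', hx', ⟨j, l, hjl⟩, himg, hs⟩
        have hex : ∀ j, ∃ y ∈ X, c * y = x' j := fun j => by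
          have := Fintype.mem_piFinset.1 hx' j
          exact Finset.mem_image.1 this
        choose x hxX hxe using hex
        have hx'e : x' = fun j => c * x j := funext fun j => (hxe j).symm
        refine ⟨x, Fintype.mem_piFinset.2 hxX, ⟨j, l, fun h => hjl ?_⟩, ?_, ?_⟩
        · rw [← hxe, ← hxe, h]
        · apply Finset.image_injective hinj
          rw [Finset.image_image]
          rw [hx'e] at himg
          exact himg
        · rw [hx'e, sol_dil h0 hc] at hs
          exact hs
      · rintro ⟨x, hx, ⟨j, l, hjl⟩, himg, hs⟩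
        refine ⟨fun j => c * x j, Fintype.mem_piFinset.2 fun j =>
          Finset.mem_image_of_mem _ (Fintype.mem_piFinset.1 hx j), ⟨j, l, fun h => hjl (hinj h)⟩, ?_,
          (sol_dil h0 hc x).2 hs⟩
        rw [← himg, Finset.image_image]
        rfl
  · rintro X ⟨hpos, x, hx, -, himg, hs⟩ p hp - hsq
    have hxX : ∀ j, x j ∈ X := fun j => Fintype.mem_piFinset.1 hx j
    have hx0 : ∀ j, x j ≠ 0 := fun j => by have := hpos _ (hxX j); omega
    have hle : ∀ j, (x j).factorization p ≤ 1 := by
      intro j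
      have h := hsq (x j) (hxX j)
      rw [hp.pow_dvd_iff_le_factorization (hx0 j)] at h
      omega
    have hlin : ∀ i, ∑ j, a i j * ((x j).factorization p : ℤ) = 0 := by
      intro i
      have h := congrArg (fun t => Nat.factorization t p) (hs i)
      rw [Nat.factorization_prod (fun j _ => pow_ne_zero _ (hx0 j)),
        Nat.factorization_prod (fun j _ => pow_ne_zero _ (hx0 j)),
        Finsupp.finsetSum_apply, Finsupp.finsetSum_apply] at h
      simp only [Nat.factorization_pow, Finsupp.smul_apply, smul_eq_mul] at h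
      have h' : ((∑ j, (a i j).toNat * (x j).factorization p : ℕ) : ℤ) -
          ((∑ j, (-a i j).toNat * (x j).factorization p : ℕ) : ℤ) = 0 := by rw [h]; ring
      push_cast at h'
      rw [← Finset.sum_sub_distrib] at h'
      rw [← h']
      refine Finset.sum_congr rfl fun j _ => ?_
      rw [← sub_mul]
      congr 1
      omega
    have hconst := h1 (fun j => ((x j).factorization p : ℤ)) (fun j => by
      have := hle j
      omega) hlin
    intro u hu v hv hpu
    rw [← himg] at hu hv
    obtain ⟨j, -, rfl⟩ := Finset.mem_image.1 hu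
    obtain ⟨l, -, rfl⟩ := Finset.mem_image.1 hv
    rw [hp.dvd_iff_one_le_factorization (hx0 j)] at hpu
    rw [hp.dvd_iff_one_le_factorization (hx0 l)]
    have := hconst j l
    simp only [Nat.cast_inj] at this
    omega

/-- `A` contains a nonconstant solution -/
def HasSol {m n : ℕ} (a : Fin m → Fin n → ℤ) (A : Set ℕ) : Prop :=
  ∃ x : Fin n → ℕ, (∀ j, x j ∈ A) ∧ (∃ j l, x j ≠ x l) ∧ Sol a x

theorem hasSol_iff {m n : ℕ} (a : Fin m → Fin n → ℤ) {A : Set ℕ} (hA : ∀ n ∈ A, 1 ≤ n) :
    HasSol a A ↔ ¬ Free (SolSet a) A := by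
  constructor
  · rintro ⟨x, hxA, hne, hs⟩ hfree
    apply hfree (Finset.univ.image x)
    · refine ⟨?_, x, Fintype.mem_piFinset.2 fun j => Finset.mem_image_of_mem _ (Finset.mem_univ j),
        hne, rfl, hs⟩
      intro y hy
      obtain ⟨j, -, rfl⟩ := Finset.mem_image.1 hy
      exact hA _ (hxA j)
    · intro y hy
      obtain ⟨j, -, rfl⟩ := Finset.mem_image.1 (Finset.mem_coe.1 hy)
      exact hxA j
  · intro h
    unfold Free at h
    push Not at h
    obtain ⟨X, ⟨-, x, hx, hne, -, hs⟩, hXA⟩ := h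
    exact ⟨x, fun j => hXA (Finset.mem_coe.2 (Fintype.mem_piFinset.1 hx j)), hne, hs⟩

end Pool.Agent.Y356.DP
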